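import Pool.Agent.H651.AP.PAmain
import Pool.Agent.H651.AP.RNfin
import Pool.Agent.H651.AP.GRx

set_option autoImplicit false

/-! Problem MP_04c775_lc, question Q1: there are almost complete PA degrees which are not above `0'`
and compute an almost complete 1-random set. In fact every set `B` which does not compute the
halting problem, in particular every incomplete almost complete 1-random set, is computable from
an almost complete PA degree which is not above `0'`. A set `B` is computable from such a degree
which computes an almost complete 1-random set if and only if the join of `B` with some almost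
complete 1-random set does not compute the halting problem; no PA degree below `0'` has this
property. -/

namespace Pool.Agent.Results.MP_04c775_lc.CofinalPA

open Pool.Agent.Helper743 Pool.Agent.Helper743.KT Nat.Partrec
open Pool.Agent.H651.AP (YY px)
open Pool.Agent.H651.AP.RN (YX)

/-- `A` is Turing reducible to `B`, for sets given by their characteristic functions. -/
def Below (A B : ℕ → Bool) : Prop :=
  TuringReducible (fun n => Part.some (A n).toNat : ℕ →. ℕ)
    (fun n => Part.some (B n).toNat : ℕ →. ℕ)

/-- `f` is upper semicomputable relative to the set `B`: the set of the pairs `(n, k)` with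
`f n ≤ k` is the domain of a function that is partial computable relative to `B`. -/
def UpperSemi (B : ℕ → Bool) (f : ℕ → ℕ) : Prop :=
  ∃ φ : ℕ →. ℕ, TuringReducible φ (fun n => Part.some (B n).toNat : ℕ →. ℕ) ∧
    ∀ n k : ℕ, (φ (Nat.pair n k)).Dom ↔ f n ≤ k

/-- All finite sums of the numbers `2 ^ (- f n)` are at most `1`. -/
def KraftSum (f : ℕ → ℕ) : Prop := ∀ s : Finset ℕ, ∑ n ∈ s, (1 / 2 : ℝ) ^ f n ≤ 1

/-- `κ` is (a version of) prefix-free Kolmogorov complexity relative to `B`, on natural numbers:
the least function up to an additive constant among the functions which are upper semicomputable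
relative to `B` and satisfy the Kraft inequality. -/
def IsComplexity (B : ℕ → Bool) (κ : ℕ → ℕ) : Prop :=
  UpperSemi B κ ∧ KraftSum κ ∧
    ∀ f : ℕ → ℕ, UpperSemi B f → KraftSum f → ∃ c : ℕ, ∀ n, κ n ≤ f n + c

/-- `X` is K-trivial relative to `B`: the complexity relative to `B` of the string of the first
`n` bits of `X` exceeds the complexity relative to `B` of `n` by at most a constant. Strings
are coded by natural numbers in the standard way. -/
def KTrivialRel (X B : ℕ → Bool) : Prop :=
  ∃ κ : ℕ → ℕ, IsComplexity B κ ∧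
    ∃ c : ℕ, ∀ n : ℕ, κ (Encodable.encode (List.ofFn (fun i : Fin n => X i))) ≤ κ n + c

/-- The halting problem. -/
noncomputable def haltingSet (n : ℕ) : Bool :=
  open Classical in decide (Code.eval (Denumerable.ofNat Code n) n).Dom

/-- `B` is almost complete: the halting problem is K-trivial relative to `B`. -/
def AlmostComplete (B : ℕ → Bool) : Prop := KTrivialRel haltingSet B

/-- A Martin-Löf test: a uniformly computably enumerable sequence of sets `U n` of binary strings
such that the open set generated by `U n` has measure at most `2 ^ (- n)`. The measure of this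
open set is the supremum of the sums of `2 ^ (- length σ)` over the finite prefix-free
subsets of `U n`. -/
def IsMLTest (U : ℕ → Set (List Bool)) : Prop :=
  REPred (fun p : ℕ × List Bool => p.2 ∈ U p.1) ∧
  ∀ n, ∀ S : Finset (List Bool), (∀ σ ∈ S, σ ∈ U n) →
    (∀ σ ∈ S, ∀ τ ∈ S, σ <+: τ → σ = τ) → ∑ σ ∈ S, (1 / 2 : ℝ) ^ σ.length ≤ (1 / 2) ^ n

/-- `Z` is 1-random (Martin-Löf random): for every Martin-Löf test `U` there is `n` such that no
initial segment of `Z` is in `U n`. -/
def MLRandom (Z : ℕ → Bool) : Prop :=
  ∀ U : ℕ → Set (List Bool), IsMLTest U → ∃ n, ∀ m : ℕ, List.ofFn (fun i : Fin m => Z i) ∉ U n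

/-- The degree of `X` is PA: every partial computable function with values in `{0, 1}` has a total
extension with values in `{0, 1}` which is computable from `X`. -/
def IsPA (X : ℕ → Bool) : Prop :=
  ∀ f : ℕ →. Bool, Partrec f → ∃ g : ℕ → Bool, Below g X ∧ ∀ n b, b ∈ f n → g n = b

/-- The join of two sets. -/
def Join (A B : ℕ → Bool) (n : ℕ) : Bool := if n % 2 = 0 then A (n / 2) else B (n / 2)

/-- `X` is an almost complete set of PA degree which does not compute the halting problem. -/
def GoodPA (X : ℕ → Bool) : Prop := IsPA X ∧ AlmostComplete X ∧ ¬ Below haltingSet X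

lemma below_iff {A B : ℕ → Bool} : Below A B ↔ TR (fun n => (A n).toNat) (fun n => (B n).toNat) :=
  TR_iff.symm

lemma upper_iff {B : ℕ → Bool} {f : ℕ → ℕ} : UpperSemi B f ↔ UpS (fun n => (B n).toNat) f := by
  constructor
  · rintro ⟨φ, h1, h2⟩
    exact ⟨φ, RecursiveIn.iff_nat.1 h1, h2⟩
  · rintro ⟨φ, h1, h2⟩
    exact ⟨φ, RecursiveIn.iff_nat.2 h1, h2⟩

lemma halting_eq : (fun n => (haltingSet n).toNat) = K0 := by
  classical
  funext n
  unfold haltingSet K0
  by_cases h : (Code.eval (Denumerable.ofNat Code n) n).Dom <;> simp [h]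

/-- transfer from functions to sets -/
lemma almost_of {X : ℕ → Bool} {Y : ℕ → ℕ} (h1 : TR Y (fun n => (X n).toNat))
    (h2 : TR (fun n => (X n).toNat) Y)
    (h : ∃ c, ∀ n, KG Y (Encodable.encode (AC.kstr n)) ≤ KG Y n + c) : AlmostComplete X := by
  classical
  have hopt : Opt (fun n => (X n).toNat) (KG Y) := Opt_of_TR h1 h2 (Opt_KG Y)
  refine ⟨KG Y, ⟨upper_iff.2 hopt.1, hopt.2.1, fun f hf hk => hopt.2.2 f (upper_iff.1 hf) hk⟩, ?_⟩
  obtain ⟨c, hc⟩ := h
  refine ⟨c, fun n => ?_⟩
  have h3 := hc n
  rw [kstr_eq] at h3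
  exact h3

lemma not_below_of {X : ℕ → Bool} {Y : ℕ → ℕ} (h2 : TR (fun n => (X n).toNat) Y)
    (h : ¬ TR K Y) : ¬ Below haltingSet X := by
  intro hb
  rw [below_iff, halting_eq] at hb
  exact h (K_TR_K0.trans (hb.trans h2))

/-- Every set which does not compute the halting problem is computable from an almost complete
set of PA degree which does not compute the halting problem. -/
theorem cofinal (B : ℕ → Bool) (hB : ¬ Below haltingSet B) :
    ∃ X : ℕ → Bool, IsPA X ∧ AlmostComplete X ∧ ¬ Below haltingSet X ∧ Below B X := by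
  classical
  have hK : ¬ TR K (fun n => (B n).toNat) := by
    intro h
    apply hB
    rw [below_iff, halting_eq]
    exact K0_TR_K.trans h
  obtain ⟨P, h1, h2, h3⟩ := Pool.Agent.H651.AP.PA.pa_exists (fun n => (B n).toNat) hK
  set Y := YY (fun n => (B n).toNat) P with hY
  refine ⟨gr Y, ?_, almost_of (TR_gr Y) (gr_TR Y) h1, not_below_of (gr_TR Y) h2, ?_⟩
  · intro f hf
    have hf' : Nat.Partrec (fun n => (f n).map Encodable.encode) := by
      have := hf
      refine Nat.Partrec.of_eq (show Nat.Partrec _ from this) ?_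
      intro n
      simp
    obtain ⟨c, hc⟩ := Code.exists_code.1 hf'
    refine ⟨fun n => P (2 * Nat.pair (Encodable.encode c) n), ?_, ?_⟩
    · rw [below_iff]
      refine TR.trans ?_ (TR_gr Y)
      have e1 : Computable (fun n : ℕ => 2 * Nat.pair (Encodable.encode c) n) :=
        (Primrec.nat_mul.comp (Primrec.const 2) (Primrec₂.natPair.comp (Primrec.const _)
          Primrec.id)).to_comp
      have e2 : Computable (fun z : ℕ => z.unpair.2) :=
        (Primrec.snd.comp Primrec.unpair).to_comp
      have e3 := (Computable.recT (O := {(Y : ℕ →. ℕ)}) e2).comp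
        ((TR.refl Y).comp (Computable.recT (O := {(Y : ℕ →. ℕ)}) e1))
      refine Nat.RecursiveIn.of_eq e3 ?_
      intro n
      congr 1
      rw [hY]
      unfold YY
      simp
    · intro n b hb
      have h4 : Encodable.encode b ∈ Code.eval c n := by
        rw [hc]
        exact Part.mem_map_iff _ |>.2 ⟨b, hb, rfl⟩
      obtain ⟨t, ht⟩ := Code.evaln_complete.1 h4
      refine h3 t (Nat.pair (Encodable.encode c) n) b ?_
      unfold Pool.Agent.H651.AP.PA.uv
      rw [Nat.unpair_pair, Denumerable.ofNat_encode]
      rw [Option.mem_def] at ht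
      simp only
      rw [ht]
      cases b <;> rfl
  · rw [below_iff]
    refine TR.trans ?_ (TR_gr Y)
    have e2 : Computable (fun z : ℕ => z.unpair.1) :=
      (Primrec.fst.comp Primrec.unpair).to_comp
    have e3 := (Computable.recT (O := {(Y : ℕ →. ℕ)}) e2).comp (TR.refl Y)
    refine Nat.RecursiveIn.of_eq e3 ?_
    intro n
    congr 1
    rw [hY]
    unfold YY
    simp

lemma px_eq (X : ℕ → Bool) (m : ℕ) : px X m = List.ofFn (fun i : Fin m => X i) := by
  unfold px
  apply List.ext_getElem
  · simp
  · intro i h1 h2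
    simp

/-- There is an almost complete 1-random set which does not compute the halting problem. -/
theorem random_exists : ∃ Z : ℕ → Bool, MLRandom Z ∧ AlmostComplete Z ∧
    ¬ Below haltingSet Z := by
  obtain ⟨X, h1, h2, h3⟩ := Pool.Agent.H651.AP.RN.rn_exists
  have t1 : TR (YX X) (fun n => (X n).toNat) := by
    have e1 : Computable (fun z : ℕ => Nat.pair 0 z) :=
      (Primrec₂.natPair.comp (Primrec.const 0) Primrec.id).to_comp
    have e2 := (Computable.recT (O := {((fun n => (X n).toNat : ℕ → ℕ) : ℕ →. ℕ)}) e1).comp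
      (TR.refl (fun n => (X n).toNat))
    exact e2
  have t2 : TR (fun n => (X n).toNat) (YX X) := by
    have e2 : Computable (fun z : ℕ => z.unpair.2) :=
      (Primrec.snd.comp Primrec.unpair).to_comp
    have e3 := (Computable.recT (O := {(YX X : ℕ →. ℕ)}) e2).comp (TR.refl (YX X))
    refine Nat.RecursiveIn.of_eq e3 ?_
    intro n
    congr 1
    unfold YX YY
    simp
  refine ⟨X, ?_, almost_of t1 t2 h1, not_below_of t2 h2⟩
  intro U hU
  obtain ⟨n, hn⟩ := h3 U hU.1 hU.2
  refine ⟨n, fun m => ?_⟩
  rw [← px_eq]
  exact hn m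

/-- A set which computes an almost complete 1-random set and a set of PA degree below the halting
problem computes the halting problem. -/
theorem obstruction (X Z P : ℕ → Bool) (hZ : MLRandom Z) (hZa : AlmostComplete Z) (hP : IsPA P)
    (hP0 : Below P haltingSet) (hZX : Below Z X) (hPX : Below P X) : Below haltingSet X := by
  classical
  have hK : ∃ c, ∀ n, KG (fun n => (Z n).toNat) (Encodable.encode (AC.kstr n)) ≤
      KG (fun n => (Z n).toNat) n + c := by
    obtain ⟨κ, ⟨h1, h2, h3⟩, c, hc⟩ := hZa
    obtain ⟨c1, hc1⟩ := KG_opt (upper_iff.1 h1) h2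
    obtain ⟨c2, hc2⟩ := h3 (KG (fun n => (Z n).toNat)) (upper_iff.2 (KG_UpS _)) (KG_Kraft _)
    refine ⟨c1 + c2 + c, fun n => ?_⟩
    have a1 := hc n
    have a2 := hc1 (Encodable.encode (List.ofFn (fun i : Fin n => haltingSet i)))
    have a3 := hc2 n
    have a4 : AC.kstr n = List.ofFn (fun i : Fin n => haltingSet i) := kstr_eq n
    rw [a4]
    omega
  have h := Pool.Agent.H651.AP.GRx.key (O := {((fun n => (X n).toNat : ℕ → ℕ) : ℕ →. ℕ)}) Z ?_ hK ?_
    (below_iff.1 hZX)
  · rw [below_iff, halting_eq]
    exact h
  · intro U h1 h2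
    exact hZ U ⟨h1, h2⟩
  · intro f hf
    obtain ⟨g, h1, h2⟩ := hP f hf
    have h3 := below_iff.1 h1
    refine ⟨g, h3.trans (below_iff.1 hPX), ?_, h2⟩
    rw [← halting_eq]
    exact h3.trans (below_iff.1 hP0)

lemma below_join_left (A B : ℕ → Bool) : Below A (Join A B) := by
  rw [below_iff]
  have e1 : Computable (fun n : ℕ => 2 * n) :=
    (Primrec.nat_mul.comp (Primrec.const 2) Primrec.id).to_comp
  have e2 := (TR.refl (fun n => (Join A B n).toNat)).comp
    (Computable.recT (O := {((fun n => (Join A B n).toNat : ℕ → ℕ) : ℕ →. ℕ)}) e1)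
  refine Nat.RecursiveIn.of_eq e2 ?_
  intro n
  congr 1
  unfold Join
  have h1 : (2 * n) % 2 = 0 := by omega
  have h2 : (2 * n) / 2 = n := by omega
  simp [h1, h2]

lemma below_join_right (A B : ℕ → Bool) : Below B (Join A B) := by
  rw [below_iff]
  have e1 : Computable (fun n : ℕ => 2 * n + 1) :=
    (Primrec.succ.comp (Primrec.nat_mul.comp (Primrec.const 2) Primrec.id)).to_comp
  have e2 := (TR.refl (fun n => (Join A B n).toNat)).comp
    (Computable.recT (O := {((fun n => (Join A B n).toNat : ℕ → ℕ) : ℕ →. ℕ)}) e1)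
  refine Nat.RecursiveIn.of_eq e2 ?_
  intro n
  congr 1
  unfold Join
  have h1 : (2 * n + 1) % 2 = 1 := by omega
  have h2 : (2 * n + 1) / 2 = n := by omega
  simp [h1, h2]

lemma join_below {A B X : ℕ → Bool} (hA : Below A X) (hB : Below B X) : Below (Join A B) X := by
  rw [below_iff] at hA hB ⊢
  set O : Set (ℕ →. ℕ) := {((fun n => (X n).toNat : ℕ → ℕ) : ℕ →. ℕ)} with hO
  have e1 : Computable (fun n : ℕ => n / 2) :=
    (Primrec.nat_div.comp Primrec.id (Primrec.const 2)).to_comp
  have hA' := RecT.comp (O := O) hA (Computable.recT e1)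
  have hB' := RecT.comp (O := O) hB (Computable.recT e1)
  have e2 : Computable (fun z : ℕ => if z.unpair.1 % 2 = 0 then z.unpair.2.unpair.1
      else z.unpair.2.unpair.2) := by
    refine (Primrec.ite (PrimrecRel.comp Primrec.eq (Primrec.nat_mod.comp
      (Primrec.fst.comp Primrec.unpair) (Primrec.const 2)) (Primrec.const 0)) ?_ ?_).to_comp
    · exact Primrec.fst.comp (Primrec.unpair.comp (Primrec.snd.comp Primrec.unpair))
    · exact Primrec.snd.comp (Primrec.unpair.comp (Primrec.snd.comp Primrec.unpair))
  have e3 := RecT.comp (Computable.recT (O := O) e2)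
    (RecT.pair (Computable.recT (O := O) (Computable.id (α := ℕ))) (RecT.pair hA' hB'))
  refine Nat.RecursiveIn.of_eq e3 ?_
  intro n
  congr 1
  unfold Join
  simp only [id, Nat.unpair_pair]
  split_ifs <;> rfl

/-- (1) Some almost complete set of PA degree which does not compute the halting problem computes
an almost complete 1-random set. (2) A set `B` is computable from some almost complete set of PA
degree which does not compute the halting problem and computes an almost complete 1-random set,
if and only if there is an almost complete 1-random set `Z` such that the join of `B` and `Z` does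
not compute the halting problem. (3) Every set `B` which does not compute the halting problem is
computable from an almost complete set of PA degree which does not compute the halting problem.
(4) If an almost complete set of PA degree, which does not compute the halting problem, computes
an almost complete 1-random set, then no set of PA degree computable from it is computable from
the halting problem. -/
theorem result :
    (∃ X Z : ℕ → Bool, GoodPA X ∧ MLRandom Z ∧ AlmostComplete Z ∧ Below Z X) ∧
    (∀ B : ℕ → Bool,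
      (∃ X Z : ℕ → Bool, GoodPA X ∧ MLRandom Z ∧ AlmostComplete Z ∧ Below Z X ∧ Below B X) ↔
        ∃ Z : ℕ → Bool, MLRandom Z ∧ AlmostComplete Z ∧ ¬ Below haltingSet (Join B Z)) ∧
    (∀ B : ℕ → Bool, ¬ Below haltingSet B → ∃ X : ℕ → Bool, GoodPA X ∧ Below B X) ∧
    (∀ X Z P : ℕ → Bool, GoodPA X → MLRandom Z → AlmostComplete Z → Below Z X →
      IsPA P → Below P X → ¬ Below P haltingSet) := by
  have htr : ∀ {A B C : ℕ → Bool}, Below A B → Below B C → Below A C := by
    intro A B C h1 h2
    rw [below_iff] at h1 h2 ⊢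
    exact h1.trans h2
  refine ⟨?_, ?_, ?_, ?_⟩
  · obtain ⟨Z, h1, h2, h3⟩ := random_exists
    obtain ⟨X, h4, h5, h6, h7⟩ := cofinal Z h3
    exact ⟨X, Z, ⟨h4, h5, h6⟩, h1, h2, h7⟩
  · intro B
    constructor
    · rintro ⟨X, Z, ⟨h1, h2, h3⟩, h4, h5, h6, h7⟩
      exact ⟨Z, h4, h5, fun h => h3 (htr h (join_below h7 h6))⟩
    · rintro ⟨Z, h1, h2, h3⟩
      obtain ⟨X, h4, h5, h6, h7⟩ := cofinal (Join B Z) h3
      exact ⟨X, Z, ⟨h4, h5, h6⟩, h1, h2, htr (below_join_right B Z) h7,
        htr (below_join_left B Z) h7⟩
  · intro B hB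
    obtain ⟨X, h4, h5, h6, h7⟩ := cofinal B hB
    exact ⟨X, ⟨h4, h5, h6⟩, h7⟩
  · intro X Z P h3 h4 h5 h6 h7 h8 h9
    exact h3.2.2 (obstruction X Z P h4 h5 h7 h9 h6 h8)

end Pool.Agent.Results.MP_04c775_lc.CofinalPA
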